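import Mathlib

/-!
# Affine-invariant properties: local characterizations and single orbit characterizations

Definitions exactly as in the problem file MP_cb1103_lc, and the rank bound.
-/

namespace Pool.Agent.Y570.SO

/-- A property `P` (an `F`-subspace of the functions `K → F`) is affine-invariant if
`f ∈ P` implies `x ↦ f (a x + b) ∈ P` for all `a ≠ 0` and `b` in `K`. -/
def AffineInvariant {F K : Type} [Field F] [Field K] (P : Submodule F (K → F)) : Prop :=
  ∀ f ∈ P, ∀ a b : K, a ≠ 0 → (fun x => f (a * x + b)) ∈ P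

/-- A `k`-local constraint `(α₁, …, α_k; S)` with `α_i ∈ K` and `S ⊊ F^k`. -/
structure LocalConstraint (F K : Type) (k : ℕ) where
  /-- the points -/
  pt : Fin k → K
  /-- the set of accepted value vectors -/
  S : Set (Fin k → F)
  /-- it is a proper subset -/
  proper : S ≠ Set.univ

/-- `f` satisfies the constraint if `(f α₁, …, f α_k) ∈ S`. -/
def LocalConstraint.Sat {F K : Type} {k : ℕ} (C : LocalConstraint F K k) (f : K → F) : Prop :=
  (fun i => f (C.pt i)) ∈ C.S

/-- The transform of a constraint by the affine map `x ↦ a x + b`. -/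
def LocalConstraint.comp {F K : Type} [Field K] {k : ℕ} (C : LocalConstraint F K k) (a b : K) :
    LocalConstraint F K k := ⟨fun i => a * C.pt i + b, C.S, C.proper⟩

/-- `P` has a `k`-local characterization: some set of `k`-local constraints is satisfied by
exactly the members of `P`. -/
def HasLocalChar {F K : Type} [Field F] [Field K] (k : ℕ) (P : Submodule F (K → F)) : Prop :=
  ∃ 𝒞 : Set (LocalConstraint F K k), ∀ f : K → F, f ∈ P ↔ ∀ C ∈ 𝒞, C.Sat f

/-- `P` has a `k`-single orbit characterization: one `k`-local constraint all of whose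
transforms by the invertible affine maps together characterize `P`. -/
def HasSingleOrbitChar {F K : Type} [Field F] [Field K] (k : ℕ) (P : Submodule F (K → F)) :
    Prop :=
  ∃ C : LocalConstraint F K k, ∀ f : K → F, f ∈ P ↔ ∀ a b : K, a ≠ 0 → (C.comp a b).Sat f

/-- The least locality `k'(P)` of a single orbit characterization of `P`. -/
noncomputable def orbitLocality {F K : Type} [Field F] [Field K] (P : Submodule F (K → F)) : ℕ :=
  sInf {k : ℕ | HasSingleOrbitChar k P}

section RankBound

variable {F K : Type} [Field F] [Field K] [Finite K] [Algebra F K]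

theorem finDim : FiniteDimensional F K := Module.Finite.of_finite

/-- the trace function `x ↦ Tr (θ * X x * Y x)` -/
noncomputable def qf (X Y : K →ₐ[F] K) (θ : K) : K → F :=
  fun x => Algebra.trace F K (θ * (X x * Y x))

/-- the trace function `x ↦ Tr (θ * X x)` -/
noncomputable def lf (X : K →ₐ[F] K) (θ : K) : K → F :=
  fun x => Algebra.trace F K (θ * X x)

theorem trace_nondeg [Finite F] {s : K} (h : ∀ θ : K, Algebra.trace F K (θ * s) = 0) : s = 0 := by
  have := finDim (F := F) (K := K)
  by_contra hs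
  obtain ⟨u, hu⟩ := Algebra.trace_surjective F K 1
  have h1 := h (u * s⁻¹)
  rw [mul_assoc, inv_mul_cancel₀ hs, mul_one, hu] at h1
  exact one_ne_zero h1

theorem qf_comp (X Y : K →ₐ[F] K) (θ a b : K) (x : K) :
    qf X Y θ (a * x + b) = qf X Y (θ * (X a * Y a)) x + lf X (θ * (X a * Y b)) x
      + lf Y (θ * (X b * Y a)) x + Algebra.trace F K (θ * (X b * Y b)) := by
  unfold qf lf
  rw [← map_add, ← map_add, ← map_add]
  congr 1
  simp only [map_add, map_mul]
  ring

theorem trace_sum_smul {ι : Type} [Fintype ι] (l : ι → F) (g : ι → K) (θ : K) :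
    ∑ i, l i * Algebra.trace F K (θ * g i) =
      Algebra.trace F K (θ * ∑ i, algebraMap F K (l i) * g i) := by
  rw [Finset.mul_sum, map_sum]
  refine Finset.sum_congr rfl fun i _ => ?_
  rw [show θ * (algebraMap F K (l i) * g i) = (l i) • (θ * g i) by
    rw [Algebra.smul_def]; ring]
  rw [map_smul, smul_eq_mul]

/-- **The rank bound.** -/
theorem rank_bound [Finite F] {ι : Type} [Fintype ι] (P : Submodule F (K → F))
    (X Y : ι → (K →ₐ[F] K))
    (hconst : ∀ c : F, (fun _ : K => c) ∈ P)
    (hlin : ∀ (Z : K →ₐ[F] K) (θ : K), lf Z θ ∈ P)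
    (hoff : ∀ a b : ι, a ≠ b → ∀ θ : K, qf (X b) (Y a) θ ∈ P)
    (hdiag : ∀ a : ι, ∃ θ : K, qf (X a) (Y a) θ ∉ P)
    {k : ℕ} (h : HasSingleOrbitChar k P) : Fintype.card ι ≤ k := by
  classical
  obtain ⟨C, hC⟩ := h
  set α : Fin k → K := C.pt with hα
  set W : Submodule F (Fin k → F) := P.map (LinearMap.funLeft F F α) with hW
  have hWS : ∀ w ∈ W, w ∈ C.S := by
    intro w hw
    rw [hW, Submodule.mem_map] at hw
    obtain ⟨f, hf, rfl⟩ := hw
    have := (hC f).1 hf 1 0 one_ne_zero
    simpa [LocalConstraint.Sat, LocalConstraint.comp, LinearMap.funLeft, Function.comp_def]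
      using this
  have hmemW : ∀ f ∈ P, (fun i => f (α i)) ∈ W := by
    intro f hf
    rw [hW, Submodule.mem_map]
    exact ⟨f, hf, rfl⟩
  -- functions outside `P` are detected by a functional vanishing on `W`
  have hsep : ∀ g : K → F, g ∉ P → ∃ a b : K, a ≠ 0 ∧ ∃ l : Fin k → F,
      (∀ f ∈ P, ∑ i, l i * f (α i) = 0) ∧ ∑ i, l i * g (a * α i + b) ≠ 0 := by
    intro g hg
    have h1 : ∃ a b : K, a ≠ 0 ∧ (fun i => g (a * α i + b)) ∉ W := by
      by_contra hcon
      push Not at hcon
      apply hg
      rw [hC]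
      intro a b ha
      exact hWS _ (hcon a b ha)
    obtain ⟨a, b, ha, hw⟩ := h1
    obtain ⟨φ, hφ1, hφ2⟩ := Submodule.exists_dual_map_eq_bot_of_notMem hw inferInstance
    have hrep : ∀ v : Fin k → F, φ v = ∑ i, φ (Pi.single i 1) * v i := by
      intro v
      conv_lhs => rw [← Finset.univ_sum_single v]
      rw [map_sum]
      refine Finset.sum_congr rfl fun i _ => ?_
      rw [show (Pi.single i (v i) : Fin k → F) = v i • Pi.single i 1 by
        rw [← Pi.single_smul, smul_eq_mul, mul_one], map_smul, smul_eq_mul, mul_comm]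
    refine ⟨a, b, ha, fun i => φ (Pi.single i 1), ?_, ?_⟩
    · intro f hf
      have h3 : φ (fun i => f (α i)) ∈ W.map φ := Submodule.mem_map_of_mem (hmemW f hf)
      rw [hφ2, Submodule.mem_bot] at h3
      rw [← hrep (fun i => f (α i)), h3]
    · rw [← hrep (fun i => g (a * α i + b))]
      exact hφ1
  -- the matrix entries
  have key : ∀ a : ι, ∃ l : Fin k → F,
      (∀ f ∈ P, ∑ i, l i * f (α i) = 0) ∧
      ∑ i, algebraMap F K (l i) * (X a (α i) * Y a (α i)) ≠ 0 := by
    intro a
    obtain ⟨θ, hθ⟩ := hdiag a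
    obtain ⟨u, v, hu, l, hl, hne⟩ := hsep _ hθ
    refine ⟨l, hl, fun h0 => hne ?_⟩
    have e1 : ∑ i, l i * qf (X a) (Y a) θ (u * α i + v)
        = ∑ i, l i * qf (X a) (Y a) (θ * (X a u * Y a u)) (α i)
          + ∑ i, l i * lf (X a) (θ * (X a u * Y a v)) (α i)
          + ∑ i, l i * lf (Y a) (θ * (X a v * Y a u)) (α i)
          + ∑ i, l i * Algebra.trace F K (θ * (X a v * Y a v)) := by
      rw [← Finset.sum_add_distrib, ← Finset.sum_add_distrib, ← Finset.sum_add_distrib]
      refine Finset.sum_congr rfl fun i _ => ?_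
      rw [qf_comp]
      ring
    rw [e1, hl _ (hlin _ _), hl _ (hlin _ _), hl _ (hconst _)]
    have e2 : ∑ i, l i * qf (X a) (Y a) (θ * (X a u * Y a u)) (α i) = 0 := by
      unfold qf
      rw [trace_sum_smul l (fun i => X a (α i) * Y a (α i)), h0, mul_zero, map_zero]
    rw [e2]
    simp
  have hzero : ∀ a b : ι, a ≠ b → ∀ l : Fin k → F, (∀ f ∈ P, ∑ i, l i * f (α i) = 0) →
      ∑ i, algebraMap F K (l i) * (X b (α i) * Y a (α i)) = 0 := by
    intro a b hab l hl
    apply trace_nondeg (F := F)
    intro θ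
    rw [← trace_sum_smul l (fun i => X b (α i) * Y a (α i))]
    exact hl _ (hoff a b hab θ)
  -- linear independence of the columns
  have hli : LinearIndependent K (fun b : ι => (fun i => X b (α i) : Fin k → K)) := by
    rw [Fintype.linearIndependent_iff]
    intro c hc a
    obtain ⟨l, hl, hne⟩ := key a
    have h1 : ∑ i, algebraMap F K (l i) * Y a (α i) * (∑ b, c b * X b (α i)) = 0 := by
      refine Finset.sum_eq_zero fun i _ => ?_
      have := congrFun hc i
      simp only [Finset.sum_apply, Pi.smul_apply, smul_eq_mul, Pi.zero_apply] at this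
      rw [this, mul_zero]
    have h2 : ∑ i, algebraMap F K (l i) * Y a (α i) * (∑ b, c b * X b (α i))
        = ∑ b, c b * ∑ i, algebraMap F K (l i) * (X b (α i) * Y a (α i)) := by
      simp_rw [Finset.mul_sum]
      rw [Finset.sum_comm]
      refine Finset.sum_congr rfl fun b _ => Finset.sum_congr rfl fun i _ => ?_
      ring
    rw [h2, Finset.sum_eq_single a] at h1
    · rcases mul_eq_zero.1 h1 with h3 | h3
      · exact h3
      · exact absurd h3 hne
    · intro b _ hb
      rw [hzero a b (Ne.symm hb) l hl, mul_zero]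
    · intro ha
      exact absurd (Finset.mem_univ a) ha
  have := hli.fintype_card_le_finrank
  simpa using this

end RankBound

end Pool.Agent.Y570.SO
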