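import Pool.Agent.Y570.SO.Tens

/-!
# The property and the main theorem
-/

namespace Pool.Agent.Y570.SO

open Finset

section

variable {F K : Type} [Field F] [Finite F] [Field K] [Finite K] [Algebra F K]

/-- The property defined by the tensor constraints of all `r`-subsets `c` of `Fin n`. -/
def prop {n : ℕ} (aa : Fin n × Bool → K) (r : ℕ) : Submodule F (K → F) where
  carrier := {f | ∀ c ∈ powersetCard r (univ : Finset (Fin n)), ∀ a b : K, a ≠ 0 →
    E (fun s : (↥c × Bool) => aa (s.1.1, s.2)) f a b = 0}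
  zero_mem' := by
    intro c _ a b _
    simp [E]
  add_mem' := by
    intro f g hf hg c hc a b ha
    have h1 := hf c hc a b ha
    have h2 := hg c hc a b ha
    unfold E at h1 h2 ⊢
    simp only [Pi.add_apply, mul_add, Finset.sum_add_distrib]
    rw [h1, h2, add_zero]
  smul_mem' := by
    intro t f hf c hc a b ha
    have h1 := hf c hc a b ha
    unfold E at h1 ⊢
    simp only [Pi.smul_apply, smul_eq_mul]
    have : ∀ u : (↥c × Bool) → Fin 5,
        L F u * (t * f (a * W (fun s : (↥c × Bool) => aa (s.1.1, s.2)) u + b))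
        = t * (L F u * f (a * W (fun s : (↥c × Bool) => aa (s.1.1, s.2)) u + b)) := by
      intro u
      ring
    simp_rw [this]
    rw [← Finset.mul_sum, h1, mul_zero]

omit [Finite F] [Finite K] [Algebra F K] in
theorem mem_prop {n : ℕ} {aa : Fin n × Bool → K} {r : ℕ} {f : K → F} :
    f ∈ prop (F := F) aa r ↔ ∀ c ∈ powersetCard r (univ : Finset (Fin n)), ∀ a b : K, a ≠ 0 →
      E (fun s : (↥c × Bool) => aa (s.1.1, s.2)) f a b = 0 := Iff.rfl

omit [Finite F] [Finite K] [Algebra F K] in
theorem prop_affine {n : ℕ} (aa : Fin n × Bool → K) (r : ℕ) :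
    AffineInvariant (prop (F := F) aa r) := by
  intro f hf a b ha
  rw [mem_prop] at hf ⊢
  intro c hc u v hu
  have h1 := hf c hc (a * u) (a * v + b) (mul_ne_zero ha hu)
  unfold E at h1 ⊢
  rw [← h1]
  refine Finset.sum_congr rfl fun w _ => ?_
  have h2 : ∀ y : K, a * (u * y + v) + b = a * u * y + (a * v + b) := by
    intro y
    ring
  beta_reduce
  rw [h2]

omit [Finite F] [Finite K] [Algebra F K] in
theorem prop_local {n : ℕ} (aa : Fin n × Bool → K) (r : ℕ) :
    HasLocalChar (25 ^ r) (prop (F := F) aa r) := by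
  classical
  -- numbering of the points
  have hcard : ∀ c ∈ powersetCard r (univ : Finset (Fin n)),
      Fintype.card ((↥c × Bool) → Fin 5) = 25 ^ r := by
    intro c hc
    rw [Fintype.card_fun, Fintype.card_prod, Fintype.card_coe, (mem_powersetCard.1 hc).2,
      Fintype.card_bool, Fintype.card_fin, mul_comm, pow_mul]
    norm_num
  have hproper : ∀ (c : Finset (Fin n)) (e : Fin (25 ^ r) ≃ ((↥c × Bool) → Fin 5)),
      {v : Fin (25 ^ r) → F | ∑ i, L F (e i) * v i = 0} ≠ Set.univ := by
    intro c e h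
    have h1 : (Pi.single (e.symm (fun _ => 0)) 1 : Fin (25 ^ r) → F) ∈
        {v : Fin (25 ^ r) → F | ∑ i, L F (e i) * v i = 0} := by
      rw [h]; exact Set.mem_univ _
    simp only [Set.mem_ofPred_eq] at h1
    rw [Finset.sum_eq_single (e.symm (fun _ => 0))] at h1
    · simp [L, lam] at h1
    · intro j _ hj
      rw [Pi.single_eq_of_ne hj, mul_zero]
    · intro h2
      exact absurd (mem_univ _) h2
  refine ⟨{C | ∃ (c : Finset (Fin n)) (_ : c ∈ powersetCard r (univ : Finset (Fin n)))
    (e : Fin (25 ^ r) ≃ ((↥c × Bool) → Fin 5)) (a b : K), a ≠ 0 ∧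
    C = ⟨fun i => a * W (fun s : (↥c × Bool) => aa (s.1.1, s.2)) (e i) + b,
      {v : Fin (25 ^ r) → F | ∑ i, L F (e i) * v i = 0}, hproper c e⟩}, ?_⟩
  intro f
  rw [mem_prop]
  constructor
  · rintro hf C ⟨c, hc, e, a, b, ha, rfl⟩
    have h1 := hf c hc a b ha
    unfold E at h1
    simp only [LocalConstraint.Sat, Set.mem_ofPred_eq]
    rw [← h1]
    exact e.sum_comp (fun u => L F u *
      f (a * W (fun s : (↥c × Bool) => aa (s.1.1, s.2)) u + b))
  · intro hf c hc a b ha
    obtain ⟨e⟩ : Nonempty (Fin (25 ^ r) ≃ ((↥c × Bool) → Fin 5)) :=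
      ⟨(Fintype.equivFinOfCardEq (hcard c hc)).symm⟩
    have h1 := hf _ ⟨c, hc, e, a, b, ha, rfl⟩
    simp only [LocalConstraint.Sat, Set.mem_ofPred_eq] at h1
    unfold E
    rw [← h1]
    exact (e.sum_comp (fun u => L F u *
      f (a * W (fun s : (↥c × Bool) => aa (s.1.1, s.2)) u + b))).symm

omit [Finite F] [Algebra F K] in
/-- every affine-invariant property which is not the set of all functions has a single orbit
characterization (of locality `Q`). -/
theorem exists_singleOrbit (P : Submodule F (K → F)) (hP : AffineInvariant P) (hne : P ≠ ⊤) :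
    HasSingleOrbitChar (Nat.card K) P := by
  classical
  let e : Fin (Nat.card K) ≃ K := (Finite.equivFin K).symm
  refine ⟨⟨e, {v | (fun x => v (e.symm x)) ∈ P}, ?_⟩, ?_⟩
  · intro h
    apply hne
    rw [eq_top_iff]
    intro f _
    have h1 : (fun i => f (e i)) ∈ {v : Fin (Nat.card K) → F | (fun x => v (e.symm x)) ∈ P} := by
      rw [h]; exact Set.mem_univ _
    simpa using h1
  · intro f
    constructor
    · intro hf a b ha
      simpa [LocalConstraint.Sat, LocalConstraint.comp] using hP f hf a b ha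
    · intro h
      have := h 1 0 one_ne_zero
      simpa [LocalConstraint.Sat, LocalConstraint.comp] using this

/-- **Main theorem.** -/
theorem main (n r : ℕ) (hr : 0 < r) (hrn : r ≤ n)
    (ht : 2 * n ≤ (Module.finrank F K).primeFactors.card) :
    ∃ P : Submodule F (K → F), AffineInvariant P ∧ HasLocalChar (25 ^ r) P ∧
      (∃ k, HasSingleOrbitChar k P) ∧ ∀ k, HasSingleOrbitChar k P → n.choose r ≤ k := by
  classical
  have := finDim (F := F) (K := K)
  -- the primes
  obtain ⟨p⟩ : Nonempty ((Fin n × Bool) ↪ (Module.finrank F K).primeFactors) := by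
    rw [Function.Embedding.nonempty_iff_card_le]
    simpa [mul_comm] using ht
  have hp : ∀ s, ((p s : ℕ)).Prime := fun s => Nat.prime_of_mem_primeFactors (p s).2
  have hpd : ∀ s, (p s : ℕ) ∣ Module.finrank F K := fun s => Nat.dvd_of_mem_primeFactors (p s).2
  choose aa haa using fun s => exists_elt (F := F) (K := K) (p s : ℕ) (hp s).pos (hpd s)
  have hco : Set.Pairwise (↑(univ : Finset (Fin n × Bool)) : Set (Fin n × Bool))
      (Function.onFun Nat.Coprime fun s => (p s : ℕ)) := by
    intro s _ s' _ hss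
    refine (Nat.coprime_primes (hp s) (hp s')).2 fun h => hss (p.injective (Subtype.ext h))
  have hcrt : ∀ g : (Fin n × Bool) → ℕ, ∃ k : ℕ, ∀ s, k ≡ g s [MOD (p s : ℕ)] := by
    intro g
    obtain ⟨k, hk⟩ := Nat.chineseRemainderOfFinset g (fun s => (p s : ℕ)) univ
      (fun s _ => (hp s).ne_zero) hco
    exact ⟨k, fun s => hk s (mem_univ s)⟩
  choose Yn hYn using fun c : Finset (Fin n) =>
    hcrt fun s => if s.1 ∈ c ∧ s.2 = false then 1 else 0
  choose Xn hXn using fun c : Finset (Fin n) =>
    hcrt fun s => if s.1 ∈ c ∧ s.2 = true then 1 else 0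
  have heq : ∀ s (X Y : ℕ), fr F K X (aa s) = fr F K Y (aa s) ↔ X ≡ Y [MOD (p s : ℕ)] := by
    intro s X Y
    rw [fr_apply, fr_apply]
    exact haa s X Y
  -- nonempty index types
  have hne : ∀ c ∈ powersetCard r (univ : Finset (Fin n)), Nonempty (↥c × Bool) := by
    intro c hc
    have h1 : c.Nonempty := by
      rw [← Finset.card_pos, (mem_powersetCard.1 hc).2]
      exact hr
    obtain ⟨i, hi⟩ := h1
    exact ⟨(⟨i, hi⟩, true)⟩
  have hconst : ∀ t : F, (fun _ : K => t) ∈ prop (F := F) aa r := by
    intro t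
    rw [mem_prop]
    intro c hc a b _
    have := hne c hc
    exact E_const _ _ _ _
  have hlin : ∀ (Z : K →ₐ[F] K) (θ : K), lf Z θ ∈ prop (F := F) aa r := by
    intro Z θ
    rw [mem_prop]
    intro c hc a b _
    have := hne c hc
    exact E_lin _ _ _ _ _
  have hoff : ∀ c d : (powersetCard r (univ : Finset (Fin n))), c ≠ d → ∀ θ : K,
      qf (fr F K (Xn d)) (fr F K (Yn c)) θ ∈ prop (F := F) aa r := by
    intro c d hcd θ
    rw [mem_prop]
    intro g hg a b _
    have := hne g hg
    rw [E_quad]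
    have hzero : ∃ s : (↥g × Bool), fr F K (Xn d) (aa (s.1.1, s.2))
        = fr F K (Yn c) (aa (s.1.1, s.2)) := by
      by_cases h1 : g ⊆ c.1
      · by_cases h2 : g ⊆ d.1
        · exfalso
          apply hcd
          have hgc : g = c.1 := Finset.eq_of_subset_of_card_le h1
            (by rw [(mem_powersetCard.1 c.2).2, (mem_powersetCard.1 hg).2])
          have hgd : g = d.1 := Finset.eq_of_subset_of_card_le h2
            (by rw [(mem_powersetCard.1 d.2).2, (mem_powersetCard.1 hg).2])
          exact Subtype.ext (hgc.symm.trans hgd)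
        · obtain ⟨i, hi, hid⟩ := Finset.not_subset.1 h2
          refine ⟨(⟨i, hi⟩, true), ?_⟩
          rw [heq]
          have e1 := hXn d.1 (i, true)
          have e2 := hYn c.1 (i, true)
          simp only [hid, false_and, if_false, Bool.true_eq_false, and_false] at e1 e2
          exact e1.trans e2.symm
      · obtain ⟨i, hi, hic⟩ := Finset.not_subset.1 h1
        refine ⟨(⟨i, hi⟩, false), ?_⟩
        rw [heq]
        have e1 := hXn d.1 (i, false)
        have e2 := hYn c.1 (i, false)
        simp only [hic, false_and, if_false, Bool.false_eq_true, and_false] at e1 e2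
        exact e1.trans e2.symm
    obtain ⟨s, hs⟩ := hzero
    rw [Finset.prod_eq_zero (Finset.mem_univ s) (by rw [hs]; ring), mul_zero, map_zero]
  have hdiag : ∀ c : (powersetCard r (univ : Finset (Fin n))), ∃ θ : K,
      qf (fr F K (Xn c)) (fr F K (Yn c)) θ ∉ prop (F := F) aa r := by
    intro c
    by_contra hcon
    push Not at hcon
    have := hne c.1 c.2
    have h1 : ∏ s : (↥c.1 × Bool), -(fr F K (Xn c) (aa (s.1.1, s.2))
        - fr F K (Yn c) (aa (s.1.1, s.2))) ^ 2 = 0 := by
      apply trace_nondeg (F := F)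
      intro θ
      have h2 := (mem_prop.1 (hcon θ)) c.1 c.2 1 0 one_ne_zero
      rw [E_quad] at h2
      simpa using h2
    rw [Finset.prod_eq_zero_iff] at h1
    obtain ⟨s, _, hs⟩ := h1
    rw [neg_eq_zero, sq_eq_zero_iff, sub_eq_zero, heq] at hs
    have e1 := hXn c.1 (s.1.1, s.2)
    have e2 := hYn c.1 (s.1.1, s.2)
    have h3 := e1.symm.trans (hs.trans e2)
    have hmem : s.1.1 ∈ c.1 := s.1.2
    have hnot : ¬ (1 ≡ 0 [MOD (p (s.1.1, s.2) : ℕ)]) := by
      intro h4
      have h5 := (Nat.modEq_zero_iff_dvd.1 h4)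
      exact (hp (s.1.1, s.2)).one_lt.ne' (Nat.dvd_one.1 h5)
    rcases hb : s.2 with _ | _
    · rw [hb] at h3 hnot
      simp only [hmem, true_and, Bool.false_eq_true, if_false, if_true] at h3
      exact hnot h3.symm
    · rw [hb] at h3 hnot
      simp only [hmem, true_and, Bool.true_eq_false, if_false, if_true] at h3
      exact hnot h3
  have hPne : prop (F := F) aa r ≠ ⊤ := by
    intro h
    obtain ⟨c, hc⟩ : (powersetCard r (univ : Finset (Fin n))).Nonempty := by
      rw [powersetCard_nonempty]
      simpa using hrn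
    obtain ⟨θ, hθ⟩ := hdiag ⟨c, hc⟩
    exact hθ (h ▸ Submodule.mem_top)
  refine ⟨prop (F := F) aa r, prop_affine aa r, prop_local aa r,
    ⟨_, exists_singleOrbit _ (prop_affine aa r) hPne⟩, ?_⟩
  intro k hk
  have h1 := rank_bound (prop (F := F) aa r)
    (fun c : (powersetCard r (univ : Finset (Fin n))) => fr F K (Xn c))
    (fun c : (powersetCard r (univ : Finset (Fin n))) => fr F K (Yn c)) hconst hlin hoff hdiag hk
  simpa using h1

end

end Pool.Agent.Y570.SO
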