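import Pool.Agent.Y570.SO.Base

/-!
# The construction: tensor products of constraints over coprime subfields
-/

namespace Pool.Agent.Y570.SO

open Finset

/-- `q^X ≡ q^Y` modulo `q^m - 1` iff `X ≡ Y` modulo `m`. -/
theorem pow_modEq_iff {q m : ℕ} (hq : 2 ≤ q) (hm : 0 < m) (X Y : ℕ) :
    q ^ X ≡ q ^ Y [MOD q ^ m - 1] ↔ X ≡ Y [MOD m] := by
  have hqm : 1 ≤ q ^ m := Nat.one_le_pow _ _ (by omega)
  have h1 : q ^ m ≡ 1 [MOD q ^ m - 1] := ((Nat.modEq_iff_dvd' hqm).2 dvd_rfl).symm
  have h2 : ∀ Z, q ^ Z ≡ q ^ (Z % m) [MOD q ^ m - 1] := by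
    intro Z
    conv_lhs => rw [← Nat.div_add_mod Z m, pow_add, pow_mul]
    simpa using (h1.pow (Z / m)).mul_right (q ^ (Z % m))
  constructor
  · intro h
    have h3 : q ^ (X % m) ≡ q ^ (Y % m) [MOD q ^ m - 1] :=
      ((h2 X).symm.trans h).trans (h2 Y)
    rcases Nat.lt_or_ge 1 m with hm1 | hm1
    · have hlt : ∀ Z, q ^ (Z % m) < q ^ m - 1 := by
        intro Z
        have hz : Z % m ≤ m - 1 := by
          have := Nat.mod_lt Z hm
          omega
        have e1 : q ^ (Z % m) ≤ q ^ (m - 1) := Nat.pow_le_pow_right (by omega) hz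
        have e2 : q ^ m = q ^ (m - 1) * q := by
          rw [← pow_succ]; congr 1; omega
        have e3 : q ^ (m - 1) * 2 ≤ q ^ (m - 1) * q := Nat.mul_le_mul_left _ hq
        have e4 : 2 ≤ q ^ (m - 1) := by
          calc 2 ≤ q := hq
            _ = q ^ 1 := (pow_one q).symm
            _ ≤ q ^ (m - 1) := Nat.pow_le_pow_right (by omega) (by omega)
        omega
      have h4 : q ^ (X % m) = q ^ (Y % m) := h3.eq_of_lt_of_lt (hlt X) (hlt Y)
      exact Nat.pow_right_injective hq h4
    · have : m = 1 := by omega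
      subst this
      exact Nat.modEq_one
  · intro h
    have h3 : X % m = Y % m := h
    exact (h2 X).trans (by rw [h3]; exact (h2 Y).symm)

section

variable {F K : Type} [Field F] [Finite F] [Field K] [Finite K] [Algebra F K]

/-- An element of degree exactly `m` over `F`, for `m` dividing the degree of `K`. -/
theorem exists_elt (m : ℕ) (hm : 0 < m) (hd : m ∣ Module.finrank F K) :
    ∃ a : K, ∀ X Y : ℕ, a ^ (Nat.card F ^ X) = a ^ (Nat.card F ^ Y) ↔ X ≡ Y [MOD m] := by
  have := finDim (F := F) (K := K)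
  obtain ⟨g, hg⟩ := IsCyclic.exists_ofOrder_eq_natCard (α := Kˣ)
  have hq : 2 ≤ Nat.card F := Finite.one_lt_card
  have hcard : Nat.card Kˣ = Nat.card F ^ Module.finrank F K - 1 := by
    rw [Nat.card_units, Module.natCard_eq_pow_finrank (K := F) (V := K)]
  have hdvd : Nat.card F ^ m - 1 ∣ orderOf g := by
    rw [hg, hcard]
    obtain ⟨e, he⟩ := hd
    rw [he, pow_mul]
    simpa using Nat.sub_dvd_pow_sub_pow (Nat.card F ^ m) 1 e
  have h0 : orderOf g ≠ 0 := (orderOf_pos g).ne'
  refine ⟨((g ^ (orderOf g / (Nat.card F ^ m - 1)) : Kˣ) : K), fun X Y => ?_⟩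
  rw [← pow_modEq_iff hq hm X Y]
  have h1 := orderOf_pow_orderOf_div h0 hdvd
  rw [← Units.val_pow_eq_pow_val, ← Units.val_pow_eq_pow_val, Units.val_inj,
    pow_eq_pow_iff_modEq, h1]

/-- powers of the Frobenius of `K` over `F` -/
noncomputable def fr (F K : Type) [Field F] [Finite F] [Field K] [Algebra F K] (X : ℕ) :
    K →ₐ[F] K :=
  haveI := Fintype.ofFinite F
  (FiniteField.frobeniusAlgHom F K) ^ X

theorem fr_apply (X : ℕ) (x : K) : fr F K X x = x ^ (Nat.card F ^ X) := by
  unfold fr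
  simp only [AlgHom.coe_pow, FiniteField.coe_frobeniusAlgHom, pow_iterate]
  rw [@Nat.card_eq_fintype_card F (Fintype.ofFinite F)]

/-- the points of the basic constraint -/
def wt (a : K) : Fin 5 → K := ![2 * a, a, 1 + a ^ 2, 1, a ^ 2]

/-- the coefficients of the basic constraint -/
def lam (F : Type) [Field F] : Fin 5 → F := ![1, -2, -1, 1, 1]

omit [Finite F] in
theorem sum_lam : ∑ v, lam F v = 0 := by
  simp only [lam, Fin.sum_univ_five, Matrix.cons_val_zero, Matrix.cons_val_one, Matrix.cons_val]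
  ring

omit [Finite F] [Finite K] in
theorem sum_lin (Z : K →ₐ[F] K) (a : K) :
    ∑ v, algebraMap F K (lam F v) * Z (wt a v) = 0 := by
  simp only [lam, wt, Fin.sum_univ_five, Matrix.cons_val_zero, Matrix.cons_val_one,
    Matrix.cons_val, map_mul, map_add, map_pow, map_one, map_neg, map_ofNat]
  ring

omit [Finite F] [Finite K] in
theorem sum_quad (X Y : K →ₐ[F] K) (a : K) :
    ∑ v, algebraMap F K (lam F v) * (X (wt a v) * Y (wt a v)) = -(X a - Y a) ^ 2 := by
  simp only [lam, wt, Fin.sum_univ_five, Matrix.cons_val_zero, Matrix.cons_val_one,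
    Matrix.cons_val, map_mul, map_add, map_pow, map_one, map_neg, map_ofNat]
  ring

variable {τ : Type} [Fintype τ] [DecidableEq τ]

/-- points of the tensor constraint -/
def W (aa : τ → K) (u : τ → Fin 5) : K := ∏ s, wt (aa s) (u s)

/-- coefficients of the tensor constraint -/
def L (F : Type) [Field F] (u : τ → Fin 5) : F := ∏ s, lam F (u s)

theorem sum_prod_fun {R : Type} [CommRing R] (g : τ → Fin 5 → R) :
    ∑ u : τ → Fin 5, ∏ s, g s (u s) = ∏ s, ∑ v, g s v := by
  rw [Finset.prod_univ_sum, Fintype.piFinset_univ]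

omit [Finite F] in
theorem sum_L [Nonempty τ] : ∑ u : τ → Fin 5, L F u = 0 := by
  unfold L
  rw [sum_prod_fun (fun _ v => lam F v)]
  simp only [sum_lam]
  obtain ⟨s⟩ := ‹Nonempty τ›
  exact Finset.prod_eq_zero (Finset.mem_univ s) rfl

omit [Finite F] [Finite K] in
theorem sum_L_lin [Nonempty τ] (aa : τ → K) (Z : K →ₐ[F] K) :
    ∑ u : τ → Fin 5, algebraMap F K (L F u) * Z (W aa u) = 0 := by
  have h1 : ∀ u : τ → Fin 5, algebraMap F K (L F u) * Z (W aa u)
      = ∏ s, (algebraMap F K (lam F (u s)) * Z (wt (aa s) (u s))) := by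
    intro u
    unfold L W
    rw [map_prod, map_prod, Finset.prod_mul_distrib]
  simp_rw [h1]
  rw [sum_prod_fun (fun s v => algebraMap F K (lam F v) * Z (wt (aa s) v))]
  obtain ⟨s⟩ := ‹Nonempty τ›
  exact Finset.prod_eq_zero (Finset.mem_univ s) (sum_lin Z (aa s))

omit [Finite F] [Finite K] in
theorem sum_L_quad (aa : τ → K) (X Y : K →ₐ[F] K) :
    ∑ u : τ → Fin 5, algebraMap F K (L F u) * (X (W aa u) * Y (W aa u))
      = ∏ s, -(X (aa s) - Y (aa s)) ^ 2 := by
  have h1 : ∀ u : τ → Fin 5, algebraMap F K (L F u) * (X (W aa u) * Y (W aa u))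
      = ∏ s, (algebraMap F K (lam F (u s)) * (X (wt (aa s) (u s)) * Y (wt (aa s) (u s)))) := by
    intro u
    unfold L W
    rw [map_prod, map_prod, map_prod, Finset.prod_mul_distrib, Finset.prod_mul_distrib]
  simp_rw [h1]
  rw [sum_prod_fun (fun s v => algebraMap F K (lam F v) * (X (wt (aa s) v) * Y (wt (aa s) v)))]
  exact Finset.prod_congr rfl fun s _ => sum_quad X Y (aa s)

/-- the tensor constraint, transformed by `x ↦ a x + b`, evaluated at `f` -/
def E (aa : τ → K) (f : K → F) (a b : K) : F := ∑ u : τ → Fin 5, L F u * f (a * W aa u + b)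

omit [Finite F] [Finite K] in
theorem E_const [Nonempty τ] (aa : τ → K) (c : F) (a b : K) : E aa (fun _ => c) a b = 0 := by
  unfold E
  rw [← Finset.sum_mul, sum_L, zero_mul]

omit [Finite F] in
theorem E_lin [Nonempty τ] (aa : τ → K) (Z : K →ₐ[F] K) (θ a b : K) :
    E aa (lf Z θ) a b = 0 := by
  unfold E
  have h1 : ∀ u : τ → Fin 5, L F u * lf Z θ (a * W aa u + b)
      = L F u * Algebra.trace F K ((θ * Z a) * Z (W aa u)) + L F u * lf Z θ b := by
    intro u
    unfold lf
    rw [← mul_add, ← map_add]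
    congr 2
    simp only [map_add, map_mul]
    ring
  simp_rw [h1]
  rw [Finset.sum_add_distrib, trace_sum_smul, sum_L_lin, ← Finset.sum_mul, sum_L]
  simp

omit [Finite F] in
theorem E_quad [Nonempty τ] (aa : τ → K) (X Y : K →ₐ[F] K) (θ a b : K) :
    E aa (qf X Y θ) a b
      = Algebra.trace F K ((θ * (X a * Y a)) * ∏ s, -(X (aa s) - Y (aa s)) ^ 2) := by
  unfold E
  have h1 : ∀ u : τ → Fin 5, L F u * qf X Y θ (a * W aa u + b)
      = L F u * Algebra.trace F K ((θ * (X a * Y a)) * (X (W aa u) * Y (W aa u)))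
        + L F u * Algebra.trace F K ((θ * (X a * Y b)) * X (W aa u))
        + L F u * Algebra.trace F K ((θ * (X b * Y a)) * Y (W aa u))
        + L F u * Algebra.trace F K (θ * (X b * Y b)) := by
    intro u
    rw [qf_comp]
    unfold qf lf
    ring
  simp_rw [h1]
  rw [Finset.sum_add_distrib, Finset.sum_add_distrib, Finset.sum_add_distrib, trace_sum_smul,
    trace_sum_smul, trace_sum_smul, sum_L_quad, sum_L_lin, sum_L_lin, ← Finset.sum_mul, sum_L]
  simp

end

end Pool.Agent.Y570.SO
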